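import Pool.Agent.N236.UR.Stm5

/-!
# Project UR (helper236), part DGS: Dickson maps are good stages (helper591)
-/

set_option autoImplicit false

open Polynomial

namespace Pool.Agent.N591.UR.DGS

open Pool.Agent.N236.UR Pool.Agent.N236.UB

section general

variable {R : Type*} [CommRing R]

theorem ev0 (a x : R) : (dickson 1 a 0).eval x = 2 := by
  rw [dickson_zero]
  simp
  norm_num

theorem ev1 (a x : R) : (dickson 1 a 1).eval x = x := by
  rw [dickson_one]
  simp

theorem ev2 (a x : R) (n : ℕ) : (dickson 1 a (n + 2)).eval x =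
    x * (dickson 1 a (n + 1)).eval x - a * (dickson 1 a n).eval x := by
  rw [dickson_add_two]
  simp

theorem scale (b x t : R) (n : ℕ) : (dickson 1 (x ^ 2 * b) n).eval (x * t) =
    x ^ n * (dickson 1 b n).eval t := by
  induction n using Nat.twoStepInduction with
  | zero => rw [ev0, ev0]; simp
  | one => rw [ev1, ev1]; simp
  | more n ih1 ih2 => rw [ev2, ev2, ih1, ih2]; ring

end general

variable {L : Type} [Field L] {v : AbsoluteValue L ℝ}

theorem mr_pos {R : ℝ} {x y : L × L} (h : wd x y ≠ 0) : 0 < mr v R x y := by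
  unfold mr mm
  by_contra hc
  push Not at hc
  have h1 : v (x.1 * y.2) ≤ 0 := ((le_max_left _ _).trans (le_max_left _ _)).trans hc
  have h2 : v (x.2 * y.1) ≤ 0 := ((le_max_right _ _).trans (le_max_left _ _)).trans hc
  have e1 : x.1 * y.2 = 0 := (AbsoluteValue.eq_zero v).1 (le_antisymm h1 (v.nonneg _))
  have e2 : x.2 * y.1 = 0 := (AbsoluteValue.eq_zero v).1 (le_antisymm h2 (v.nonneg _))
  exact h (by unfold wd; rw [e1, e2, sub_zero])

theorem mr_nonneg {R : ℝ} (x y : L × L) : 0 ≤ mr v R x y :=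
  (v.nonneg (x.1 * y.2)).trans ((le_max_left _ _).trans (le_max_left _ _))

/-- the formula for the value of the wedge product of the images -/
theorem fml (h1 : S_DV1) {p q e l : ℕ} (hv : Loc v p q e) (hp : p.Prime) (hl : l.Prime)
    (hpl : ¬ p ∣ l) (hcop : Nat.Coprime l (q ^ 2 - 1)) (α : L) (x y : L × L) :
    v (wd (dkm l α x) (dkm l α y)) = v (wd x y) * mr v (Real.sqrt (v α)) x y ^ (l - 1) := by
  have e1 : wd (dkm l α x) (dkm l α y) =
      (dickson 1 (α * x.2 ^ 2 * y.2 ^ 2) l).eval (x.1 * y.2) -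
      (dickson 1 (α * x.2 ^ 2 * y.2 ^ 2) l).eval (x.2 * y.1) := by
    have s1 := scale (α * x.2 ^ 2) y.2 x.1 l
    have s2 := scale (α * y.2 ^ 2) x.2 y.1 l
    rw [show y.2 ^ 2 * (α * x.2 ^ 2) = α * x.2 ^ 2 * y.2 ^ 2 by ring, mul_comm y.2 x.1] at s1
    rw [show x.2 ^ 2 * (α * y.2 ^ 2) = α * x.2 ^ 2 * y.2 ^ 2 by ring] at s2
    rw [s1, s2]
    unfold wd dkm
    simp only
    ring
  have e2 : Real.sqrt (v (α * x.2 ^ 2 * y.2 ^ 2)) = Real.sqrt (v α) * (v x.2 * v y.2) := by
    have e3 : v (α * x.2 ^ 2 * y.2 ^ 2) = v α * (v x.2 * v y.2) ^ 2 := by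
      rw [map_mul, map_mul, map_pow, map_pow]
      ring
    rw [e3, Real.sqrt_mul (v.nonneg _), Real.sqrt_sq (mul_nonneg (v.nonneg _) (v.nonneg _))]
  rw [e1, h1 L v p q e l hv hp hl hpl hcop, e2]
  rfl

/-! ### The norms -/

theorem NN_nonneg {s : ℝ} (x : L × L) : 0 ≤ NN v s x := (v.nonneg _).trans (le_max_left _ _)

theorem NN_pos {s : ℝ} (hs : 0 < s) {x y : L × L} (h : wd x y ≠ 0) : 0 < NN v s x := by
  by_contra hc
  push Not at hc
  have h1 : v x.1 ≤ 0 := (le_max_left _ _).trans hc
  have h2 : s * v x.2 ≤ 0 := (le_max_right _ _).trans hc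
  have h3 : v x.2 ≤ 0 := by
    by_contra h4
    push Not at h4
    have := mul_pos hs h4
    linarith
  have e1 : x.1 = 0 := (AbsoluteValue.eq_zero v).1 (le_antisymm h1 (v.nonneg _))
  have e2 : x.2 = 0 := (AbsoluteValue.eq_zero v).1 (le_antisymm h3 (v.nonneg _))
  exact h (by unfold wd; rw [e1, e2]; ring)

theorem wd_le (hna : ∀ x y : L, v (x + y) ≤ max (v x) (v y)) {s : ℝ} (hs : 0 < s) (x y : L × L) :
    s * v (wd x y) ≤ NN v s x * NN v s y := by
  have e : wd x y = x.1 * y.2 + -(x.2 * y.1) := by unfold wd; ring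
  have h1 : s * v (x.1 * y.2) ≤ NN v s x * NN v s y := by
    rw [map_mul]
    calc s * (v x.1 * v y.2) = v x.1 * (s * v y.2) := by ring
      _ ≤ NN v s x * NN v s y := mul_le_mul (le_max_left _ _) (le_max_right _ _)
          (mul_nonneg hs.le (v.nonneg _)) (NN_nonneg _)
  have h2 : s * v (x.2 * y.1) ≤ NN v s x * NN v s y := by
    rw [map_mul]
    calc s * (v x.2 * v y.1) = (s * v x.2) * v y.1 := by ring
      _ ≤ NN v s x * NN v s y := mul_le_mul (le_max_right _ _) (le_max_left _ _)
          (v.nonneg _) (NN_nonneg _)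
  have h3 : v (wd x y) ≤ max (v (x.1 * y.2)) (v (x.2 * y.1)) := by
    rw [e]
    refine (hna _ _).trans (le_of_eq ?_)
    rw [map_neg_eq_map]
  rcases le_total (v (x.1 * y.2)) (v (x.2 * y.1)) with h | h
  · rw [max_eq_right h] at h3
    exact (mul_le_mul_of_nonneg_left h3 hs.le).trans h2
  · rw [max_eq_left h] at h3
    exact (mul_le_mul_of_nonneg_left h3 hs.le).trans h1

theorem rel_trans (hna : ∀ x y : L, v (x + y) ≤ max (v x) (v y)) {s : ℝ} (hs : 0 < s)
    {a b c : L × L} (ha : 0 < NN v s a) (hb : 0 < NN v s b) (hc : 0 < NN v s c)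
    (h1 : s * v (wd a b) < NN v s a * NN v s b) (h2 : s * v (wd b c) < NN v s b * NN v s c) :
    s * v (wd a c) < NN v s a * NN v s c := by
  have hgen : ∀ (a' b' c' : L) (w : ℝ), 0 < w → wd a c * b' = wd b c * a' + wd a b * c' →
      w * v a' ≤ NN v s a → w * v b' = NN v s b → w * v c' ≤ NN v s c →
      s * v (wd a c) < NN v s a * NN v s c := by
    intro a' b' c' w hw h ha' hb' hc'
    have h3 : s * v (wd a c) * NN v s b < NN v s a * NN v s c * NN v s b := by
      have e : s * v (wd a c) * NN v s b = s * w * v (wd b c * a' + wd a b * c') := by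
        rw [← h, map_mul, ← hb']
        ring
      rw [e]
      have h4 : s * w * v (wd b c * a') < NN v s a * NN v s c * NN v s b := by
        rw [map_mul]
        calc s * w * (v (wd b c) * v a') = s * v (wd b c) * (w * v a') := by ring
          _ ≤ s * v (wd b c) * NN v s a :=
              mul_le_mul_of_nonneg_left ha' (mul_nonneg hs.le (v.nonneg _))
          _ < (NN v s b * NN v s c) * NN v s a := mul_lt_mul_of_pos_right h2 ha
          _ = _ := by ring
      have h5 : s * w * v (wd a b * c') < NN v s a * NN v s c * NN v s b := by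
        rw [map_mul]
        calc s * w * (v (wd a b) * v c') = s * v (wd a b) * (w * v c') := by ring
          _ ≤ s * v (wd a b) * NN v s c :=
              mul_le_mul_of_nonneg_left hc' (mul_nonneg hs.le (v.nonneg _))
          _ < (NN v s a * NN v s b) * NN v s c := mul_lt_mul_of_pos_right h1 hc
          _ = _ := by ring
      have hsw : 0 ≤ s * w := (mul_pos hs hw).le
      rcases le_max_iff.1 (hna (wd b c * a') (wd a b * c')) with h6 | h6
      · exact (mul_le_mul_of_nonneg_left h6 hsw).trans_lt h4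
      · exact (mul_le_mul_of_nonneg_left h6 hsw).trans_lt h5
    exact lt_of_mul_lt_mul_right h3 hb.le
  rcases le_total (v b.1) (s * v b.2) with h | h
  · exact hgen a.2 b.2 c.2 s hs (by unfold wd; ring) (le_max_right _ _) (max_eq_right h).symm
      (le_max_right _ _)
  · refine hgen a.1 b.1 c.1 1 one_pos (by unfold wd; ring) ?_ ?_ ?_
    · rw [one_mul]
      exact le_max_left _ _
    · rw [one_mul]
      exact (max_eq_left h).symm
    · rw [one_mul]
      exact le_max_left _ _

/-- the main inequality -/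
theorem key {l : ℕ} {α : L} {s : ℝ} (hna : ∀ x y : L, v (x + y) ≤ max (v x) (v y)) (hs : 0 < s)
    (h3 : ∀ x y : L × L, 0 < NN v s x → 0 < NN v s y →
      v (phiD l α x y) * s ^ (l - 1) ≤ (NN v s x * NN v s y) ^ (l - 1))
    (h4 : ∀ x x' : L × L, 0 < NN v s x → 0 < NN v s x' →
      s * v (wd x x') < NN v s x * NN v s x' →
      ∃ c : L, v c * NN v s x = NN v s x' ∧ ∀ y : L × L, 0 < NN v s y →
        v (phiD l α x' y - c ^ (l - 1) * phiD l α x y) * s ^ (l - 1) <
          (NN v s x' * NN v s y) ^ (l - 1))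
    (h2 : ∀ x y : L × L, phiD l α x y = phiD l α y x)
    {X U J J' : L × L} (hX : 0 < NN v s X) (hU : 0 < NN v s U) (hJ : 0 < NN v s J)
    (hJ' : 0 < NN v s J') (hrel : s * v (wd J J') < NN v s J * NN v s J')
    (hXJ' : v (phiD l α X J') * s ^ (l - 1) = (NN v s X * NN v s J') ^ (l - 1))
    (hUJ : v (phiD l α U J) * s ^ (l - 1) = (NN v s U * NN v s J) ^ (l - 1)) :
    v (phiD l α X J * phiD l α U J' - phiD l α X J' * phiD l α U J) <
      v (phiD l α X J' * phiD l α U J) := by
  obtain ⟨c, -, hc⟩ := h4 J J' hJ hJ' hrel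
  have hcX := hc X hX
  have hcU := hc U hU
  rw [h2 J' X, h2 J X] at hcX
  rw [h2 J' U, h2 J U] at hcU
  have hS : 0 < s ^ (l - 1) := pow_pos hs _
  have hb1 := h3 X J hX hJ
  have hb2 := h3 U J hU hJ
  obtain ⟨S, hSdef⟩ : ∃ S, S = s ^ (l - 1) := ⟨_, rfl⟩
  rw [← hSdef] at hS hb1 hb2 hcX hcU hXJ' hUJ
  have hM : (NN v s X * NN v s J') ^ (l - 1) * (NN v s U * NN v s J) ^ (l - 1) =
      (NN v s X * NN v s J) ^ (l - 1) * (NN v s J' * NN v s U) ^ (l - 1) := by
    rw [← mul_pow, ← mul_pow]
    congr 1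
    ring
  have e : phiD l α X J * phiD l α U J' - phiD l α X J' * phiD l α U J =
      phiD l α X J * (phiD l α U J' - c ^ (l - 1) * phiD l α U J) +
        -((phiD l α X J' - c ^ (l - 1) * phiD l α X J) * phiD l α U J) := by ring
  have hgoal : v (phiD l α X J * phiD l α U J' - phiD l α X J' * phiD l α U J) * (S * S) <
      v (phiD l α X J' * phiD l α U J) * (S * S) := by
    have hr : v (phiD l α X J' * phiD l α U J) * (S * S) =
        (NN v s X * NN v s J') ^ (l - 1) * (NN v s U * NN v s J) ^ (l - 1) := by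
      rw [map_mul, ← hXJ', ← hUJ]
      ring
    rw [hr, e]
    have g1 : v (phiD l α X J * (phiD l α U J' - c ^ (l - 1) * phiD l α U J)) * (S * S) <
        (NN v s X * NN v s J') ^ (l - 1) * (NN v s U * NN v s J) ^ (l - 1) := by
      rw [map_mul, hM]
      calc v (phiD l α X J) * v (phiD l α U J' - c ^ (l - 1) * phiD l α U J) * (S * S)
          = v (phiD l α X J) * S * (v (phiD l α U J' - c ^ (l - 1) * phiD l α U J) * S) := by ring
        _ ≤ (NN v s X * NN v s J) ^ (l - 1) *
            (v (phiD l α U J' - c ^ (l - 1) * phiD l α U J) * S) :=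
            mul_le_mul_of_nonneg_right hb1 (mul_nonneg (v.nonneg _) hS.le)
        _ < (NN v s X * NN v s J) ^ (l - 1) * (NN v s J' * NN v s U) ^ (l - 1) :=
            mul_lt_mul_of_pos_left hcU (pow_pos (mul_pos hX hJ) _)
    have g2 : v ((phiD l α X J' - c ^ (l - 1) * phiD l α X J) * phiD l α U J) * (S * S) <
        (NN v s X * NN v s J') ^ (l - 1) * (NN v s U * NN v s J) ^ (l - 1) := by
      rw [map_mul]
      calc v (phiD l α X J' - c ^ (l - 1) * phiD l α X J) * v (phiD l α U J) * (S * S)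
          = v (phiD l α X J' - c ^ (l - 1) * phiD l α X J) * S * (v (phiD l α U J) * S) := by ring
        _ ≤ v (phiD l α X J' - c ^ (l - 1) * phiD l α X J) * S *
            (NN v s U * NN v s J) ^ (l - 1) :=
            mul_le_mul_of_nonneg_left hb2 (mul_nonneg (v.nonneg _) hS.le)
        _ < (NN v s J' * NN v s X) ^ (l - 1) * (NN v s U * NN v s J) ^ (l - 1) :=
            mul_lt_mul_of_pos_right hcX (pow_pos (mul_pos hU hJ) _)
        _ = _ := by rw [mul_comm (NN v s J') (NN v s X)]
    have hSS : 0 ≤ S * S := (mul_pos hS hS).le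
    rcases le_max_iff.1 (hna (phiD l α X J * (phiD l α U J' - c ^ (l - 1) * phiD l α U J))
      (-((phiD l α X J' - c ^ (l - 1) * phiD l α X J) * phiD l α U J))) with h6 | h6
    · exact (mul_le_mul_of_nonneg_right h6 hSS).trans_lt g1
    · rw [map_neg_eq_map] at h6
      exact (mul_le_mul_of_nonneg_right h6 hSS).trans_lt g2
  exact lt_of_mul_lt_mul_right hgoal (mul_pos hS hS).le

theorem t_dgs : S_DV1 → S_MR4 → S_POS → S_RED → S_DGS := by
  intro hDV hMR hPOS hRED L _ v p q e l hv hp hl hpl hcop α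
  have hna := hv.1
  have hl2 : 2 ≤ l := hl.two_le
  obtain ⟨R, hR⟩ : ∃ R, R = Real.sqrt (v α) := ⟨_, rfl⟩
  have hR0 : 0 ≤ R := by rw [hR]; exact Real.sqrt_nonneg _
  have hF : ∀ x y : L × L, v (wd (dkm l α x) (dkm l α y)) =
      v (wd x y) * mr v R x y ^ (l - 1) := by
    intro x y
    rw [hR]
    exact fml hDV hv hp hl hpl hcop α x y
  refine ⟨?_, ?_, ?_⟩
  · intro x y
    constructor
    · intro h
      by_contra hne
      have h1 := hF x y
      rw [h, map_zero] at h1
      have h2 : 0 < v (wd x y) * mr v R x y ^ (l - 1) :=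
        mul_pos (v.pos hne) (pow_pos (mr_pos hne) _)
      linarith
    · intro h
      have h1 := hF x y
      rw [h, map_zero, zero_mul, AbsoluteValue.eq_zero] at h1
      exact h1
  · intro a b c d hab hac had hbc hbd hcd hle
    have h1 := hMR L v hna R hR0 a b c d hab hac had hbc hbd hcd hle
    have h3 : (mr v R a b * mr v R c d) ^ (l - 1) ≤ (mr v R a c * mr v R b d) ^ (l - 1) :=
      pow_le_pow_left₀ (mul_nonneg (mr_nonneg _ _) (mr_nonneg _ _)) h1 _
    rw [hF a b, hF c d, hF a c, hF b d]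
    have h5 : 0 ≤ v (wd a b) * v (wd c d) * (v (wd a c) * v (wd b d)) :=
      mul_nonneg (mul_nonneg (v.nonneg _) (v.nonneg _)) (mul_nonneg (v.nonneg _) (v.nonneg _))
    calc v (wd a b) * mr v R a b ^ (l - 1) * (v (wd c d) * mr v R c d ^ (l - 1)) *
          (v (wd a c) * v (wd b d))
        = (v (wd a b) * v (wd c d) * (v (wd a c) * v (wd b d))) *
          (mr v R a b * mr v R c d) ^ (l - 1) := by
          rw [mul_pow]
          ring
      _ ≤ (v (wd a b) * v (wd c d) * (v (wd a c) * v (wd b d))) *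
          (mr v R a c * mr v R b d) ^ (l - 1) := mul_le_mul_of_nonneg_left h3 h5
      _ = _ := by
          rw [mul_pow]
          ring
  intro n V hn hV hyp
  have hnz : ∀ i j : ℤ, ¬ (n : ℤ) ∣ i - j → wd (V i) (V j) ≠ 0 := fun i j h h0 => h ((hV.2 i j).1 h0)
  have hH : ∀ a b c d : ℤ, Dis4 n a b c d →
      mr v R (V a) (V b) * mr v R (V c) (V d) = mr v R (V a) (V c) * mr v R (V b) (V d) := by
    intro a b c d hD
    have h1 := hyp a b c d hD
    obtain ⟨hab, hac, had, hbc, hbd, hcd⟩ := hD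
    have wab := hnz a b hab
    have wac := hnz a c hac
    have wbd := hnz b d hbd
    have wcd := hnz c d hcd
    rw [hF (V a) (V b), hF (V c) (V d), hF (V a) (V c), hF (V b) (V d)] at h1
    have hpos : 0 < v (wd (V a) (V b)) * v (wd (V c) (V d)) *
        (v (wd (V a) (V c)) * v (wd (V b) (V d))) :=
      mul_pos (mul_pos (v.pos wab) (v.pos wcd)) (mul_pos (v.pos wac) (v.pos wbd))
    have h2 : (mr v R (V a) (V b) * mr v R (V c) (V d)) ^ (l - 1) =
        (mr v R (V a) (V c) * mr v R (V b) (V d)) ^ (l - 1) := by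
      apply mul_left_cancel₀ hpos.ne'
      rw [mul_pow, mul_pow]
      linear_combination h1
    exact (pow_left_inj₀ (mul_nonneg (mr_nonneg _ _) (mr_nonneg _ _))
      (mul_nonneg (mr_nonneg _ _) (mr_nonneg _ _)) (by omega)).1 h2
  obtain ⟨s, hs, hRs, hpos⟩ := hPOS L v R hR0 n V hn hV hH
  have hαs : v α ≤ s ^ 2 := by
    have h1 : v α = R ^ 2 := by rw [hR, Real.sq_sqrt (v.nonneg _)]
    rw [h1]
    exact pow_le_pow_left₀ hR0 hRs 2
  obtain ⟨r1, r2, r3, r4⟩ := hRED L v hna l α s (by omega) hs hαs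
  obtain ⟨hper, hwd⟩ := id hV
  have hcong : ∀ i j : ℤ, (n : ℤ) ∣ i - j → V i = V j := by
    intro i j h
    obtain ⟨k, hk⟩ := h
    have hp : Function.Periodic V (n : ℤ) := hper
    have h1 := (hp.int_mul k) j
    have h2 : j + k * (n : ℤ) = i := by linarith
    rw [← h2]
    exact h1
  have hN : ∀ i, 0 < NN v s (V i) := by
    intro i
    have h1 : ¬ (n : ℤ) ∣ i - (i + 1) := by
      intro h3
      have h4 : i - (i + 1) = -1 := by ring
      rw [h4, dvd_neg] at h3
      have := Int.le_of_dvd one_pos h3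
      omega
    exact NN_pos hs (hnz i (i + 1) h1)
  have hsw : ∀ x y : L × L, wd y x = -wd x y := by
    intro x y
    unfold wd
    ring
  have hφ : ∀ i j : ℤ, ¬ (n : ℤ) ∣ i - j →
      v (phiD l α (V i) (V j)) * s ^ (l - 1) = (NN v s (V i) * NN v s (V j)) ^ (l - 1) := by
    intro i j hij
    have h1 := hF (V i) (V j)
    rw [r1, map_mul] at h1
    have h2 := mul_left_cancel₀ (v.pos (hnz i j hij)).ne' h1
    rw [h2, ← mul_pow, hpos i j hij]
  have hsq : 0 < Real.sqrt s := Real.sqrt_pos.2 hs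
  have hdd : ∀ i j : ℤ, NN v s (V i) / Real.sqrt s * (NN v s (V j) / Real.sqrt s) =
      NN v s (V i) * NN v s (V j) / s := by
    intro i j
    rw [div_mul_div_comm, Real.mul_self_sqrt hs.le]
  refine ⟨fun i j => s * v (wd (V i) (V j)) < NN v s (V i) * NN v s (V j),
    fun i => NN v s (V i) / Real.sqrt s, ⟨⟨?_, ?_, ?_⟩, ?_, ?_, ?_, ?_, ?_⟩, ?_⟩
  · intro i
    have : wd (V i) (V i) = 0 := by unfold wd; ring
    rw [this, map_zero, mul_zero]
    exact mul_pos (hN i) (hN i)
  · intro i j h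
    rw [hsw (V i) (V j), map_neg_eq_map, mul_comm (NN v s (V j))]
    exact h
  · intro i j k h1 h2
    exact rel_trans hna hs (hN i) (hN j) (hN k) h1 h2
  · intro i j j' hj h
    rw [← hcong j j' hj]
    exact h
  · intro i
    exact div_pos (hN i) hsq
  · intro i
    simp only [hper]
  · intro i j h
    have h1 : s * v (wd (V i) (V j)) = NN v s (V i) * NN v s (V j) :=
      le_antisymm (wd_le hna hs _ _) (not_lt.1 h)
    simp only
    rw [hdd, ← h1]
    unfold dl
    field_simp
  · intro i j h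
    simp only
    rw [hdd, lt_div_iff₀ hs]
    unfold dl
    rw [one_mul, one_mul, mul_comm]
    exact h
  · intro i u j j' hD hrel
    obtain ⟨hiu, hij, hij', huj, huj', hjj'⟩ := hD
    have hmain : v (phiD l α (V i) (V j) * phiD l α (V u) (V j') -
        phiD l α (V i) (V j') * phiD l α (V u) (V j)) <
        v (phiD l α (V i) (V j') * phiD l α (V u) (V j)) := by
      rcases hrel with h | h
      · have h2 := key hna hs r3 r4 r2 (X := V j) (U := V j') (J := V i) (J' := V u)
          (hN j) (hN j') (hN i) (hN u) h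
          (by rw [r2, mul_comm (NN v s (V j))]; exact hφ u j huj)
          (by rw [r2, mul_comm (NN v s (V j'))]; exact hφ i j' hij')
        rw [r2 (V j) (V i), r2 (V j') (V u), r2 (V j) (V u), r2 (V j') (V i)] at h2
        rw [mul_comm (phiD l α (V i) (V j')) (phiD l α (V u) (V j))]
        exact h2
      · exact key hna hs r3 r4 r2 (hN i) (hN u) (hN j) (hN j') h (hφ i j' hij') (hφ u j huj)
    obtain ⟨c, hc⟩ : ∃ c, c = wd (V i) (V j) * wd (V u) (V j') * wd (V i) (V j') *
      wd (V u) (V j) := ⟨_, rfl⟩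
    have hc0 : c ≠ 0 := by
      rw [hc]
      exact mul_ne_zero (mul_ne_zero (mul_ne_zero (hnz i j hij) (hnz u j' huj')) (hnz i j' hij'))
        (hnz u j huj)
    have hD' : wd (dkm l α (V i)) (dkm l α (V j')) * wd (dkm l α (V u)) (dkm l α (V j)) *
        (wd (V i) (V j) * wd (V u) (V j')) =
        c * (phiD l α (V i) (V j') * phiD l α (V u) (V j)) := by
      rw [r1, r1, hc]
      ring
    have hN' : wd (dkm l α (V i)) (dkm l α (V j)) * wd (dkm l α (V u)) (dkm l α (V j')) *
        (wd (V i) (V j') * wd (V u) (V j)) =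
        c * (phiD l α (V i) (V j) * phiD l α (V u) (V j')) := by
      rw [r1, r1, hc]
      ring
    rw [hD', hN', ← mul_sub, map_mul,
      map_mul v c (phiD l α (V i) (V j') * phiD l α (V u) (V j))]
    exact mul_lt_mul_of_pos_left hmain (v.pos hc0)

end Pool.Agent.N591.UR.DGS
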